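import Pool.Agent.H1.MNA.Stmts

/-!
Row CIR of the board `mna`: the first Fourier coefficient of a holomorphic function on a circle.
-/

set_option autoImplicit false

open Complex MeasureTheory Set Metric
open scoped Real ENNReal ComplexConjugate

namespace Pool.MNA

theorem cir_thm : CIR_S := by
  intro h ε₁ ε hε hε₁ hd
  have hcont : ContinuousOn h (closedBall 0 ε) :=
    hd.continuousOn.mono (closedBall_subset_ball hε₁)
  have hdc : DiffContOnCl ℂ h (ball 0 ε) := by
    refine ⟨hd.mono (ball_subset_ball hε₁.le), ?_⟩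
    rw [closure_ball 0 hε.ne']
    exact hcont
  have hF : Continuous fun x : ℝ => h (ε * exp (x * I)) := by
    refine ContinuousOn.comp_continuous hcont (by fun_prop) ?_
    intro x
    rw [mem_closedBall_zero_iff, norm_mul, Complex.norm_exp_ofReal_mul_I, mul_one,
      Complex.norm_real, Real.norm_of_nonneg hε.le]
  have cm : ∀ θ : ℝ, circleMap 0 ε θ = ε * exp (θ * I) := fun θ => by simp [circleMap]
  have hεc : (ε : ℂ) ≠ 0 := by exact_mod_cast hε.ne'
  have hB : ∫ x in (0 : ℝ)..2 * π, h (ε * exp (x * I)) * exp (x * I) = 0 := by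
    have h1 : ∮ z in C(0, ε), h z = 0 :=
      Complex.circleIntegral_eq_zero_of_differentiable_on_off_countable hε.le countable_empty
        hcont (fun z hz => hd.differentiableAt
          (isOpen_ball.mem_nhds (ball_subset_ball hε₁.le hz.1)))
    rw [circleIntegral] at h1
    have h2 : ∀ x : ℝ, deriv (circleMap 0 ε) x • h (circleMap 0 ε x) =
        (ε * I) * (h (ε * exp (x * I)) * exp (x * I)) := by
      intro x
      rw [deriv_circleMap, cm, smul_eq_mul]
      ring
    simp_rw [h2] at h1
    rw [intervalIntegral.integral_const_mul] at h1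
    exact (mul_eq_zero.1 h1).resolve_left (mul_ne_zero hεc I_ne_zero)
  have hA : ∫ x in (0 : ℝ)..2 * π, h (ε * exp (x * I)) * exp (-(x * I)) =
      2 * π * ε * deriv h 0 := by
    have h1 := hdc.deriv_eq_smul_circleIntegral hε
    rw [circleIntegral] at h1
    have h2 : ∀ x : ℝ, deriv (circleMap 0 ε) x •
        (1 / (circleMap 0 ε x - 0) ^ 2) • h (circleMap 0 ε x) =
        (I / ε) * (h (ε * exp (x * I)) * exp (-(x * I))) := by
      intro x
      rw [deriv_circleMap, cm, smul_eq_mul, smul_eq_mul, sub_zero, exp_neg]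
      have he : exp (x * I) ≠ 0 := exp_ne_zero _
      field_simp
    simp_rw [h2] at h1
    rw [intervalIntegral.integral_const_mul, smul_eq_mul] at h1
    have hI : I ≠ 0 := I_ne_zero
    rw [div_mul_eq_mul_div, div_eq_iff hεc] at h1
    have h3 : I * ((∫ x in (0 : ℝ)..2 * π, h (ε * exp (x * I)) * exp (-(x * I))) -
        2 * π * ε * deriv h 0) = 0 := by
      rw [mul_sub, h1]
      ring
    exact sub_eq_zero.1 ((mul_eq_zero.1 h3).resolve_left hI)
  have hint1 : IntervalIntegrable (fun x : ℝ => h (ε * exp (x * I)) * exp (x * I)) volume 0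
      (2 * π) := (hF.mul (by fun_prop)).intervalIntegrable _ _
  have hint2 : IntervalIntegrable (fun x : ℝ => h (ε * exp (x * I)) * exp (-(x * I))) volume 0
      (2 * π) := (hF.mul (by fun_prop)).intervalIntegrable _ _
  have hS : ∫ x in (0 : ℝ)..2 * π, h (ε * exp (x * I)) * (Real.sin x : ℂ) =
      I * (π * ε * deriv h 0) := by
    have h3 : ∀ x : ℝ, h (ε * exp (x * I)) * (Real.sin x : ℂ) =
        (2 * I)⁻¹ * (h (ε * exp (x * I)) * exp (x * I) - h (ε * exp (x * I)) * exp (-(x * I))) := by
      intro x
      rw [Complex.ofReal_sin, Complex.sin]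
      have : I ≠ 0 := I_ne_zero
      field_simp
      ring_nf
      simp
      ring
    simp_rw [h3]
    rw [intervalIntegral.integral_const_mul, intervalIntegral.integral_sub hint1 hint2, hA, hB]
    have : I ≠ 0 := I_ne_zero
    field_simp
    simp
  have hper : Function.Periodic (fun x : ℝ => (h (ε * exp (x * I))).im * Real.sin x) (2 * π) := by
    intro x
    simp only
    rw [Real.sin_add_two_pi]
    congr 3
    push_cast
    rw [add_mul, exp_add, Complex.exp_two_pi_mul_I, mul_one]
  have h4 : ∫ x in (-π)..π, (h (ε * exp (x * I))).im * Real.sin x =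
      ∫ x in (0 : ℝ)..2 * π, (h (ε * exp (x * I))).im * Real.sin x := by
    have := hper.intervalIntegral_add_eq (-π) 0
    rw [show -π + 2 * π = π by ring, zero_add] at this
    exact this
  have hint3 : IntervalIntegrable (fun x : ℝ => h (ε * exp (x * I)) * (Real.sin x : ℂ)) volume 0
      (2 * π) := (hF.mul (by fun_prop)).intervalIntegrable _ _
  rw [h4]
  have h5 : ∀ x : ℝ, (h (ε * exp (x * I))).im * Real.sin x =
      (h (ε * exp (x * I)) * (Real.sin x : ℂ)).im := by
    intro x
    rw [Complex.im_mul_ofReal]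
  simp_rw [h5]
  have h6 : ∫ x in (0 : ℝ)..2 * π, (h (ε * exp (x * I)) * (Real.sin x : ℂ)).im =
      (∫ x in (0 : ℝ)..2 * π, h (ε * exp (x * I)) * (Real.sin x : ℂ)).im :=
    intervalIntegral.intervalIntegral_im hint3
  rw [h6, hS]
  simp

end Pool.MNA
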